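import Pool.Agent.KDT.StmtsZ

set_option autoImplicit false

/-!
# KDT (MP_160b6c_nt), block Z, row STB: the start of the zero estimate
-/

namespace Pool.Agent.KDT.H88

open Polynomial Pool.Agent.KDT.Z

/-- an irreducible polynomial has positive degree -/
lemma tdeg_pos {k : Type} [Field k] (Φ : MvPolynomial (Fin 2) k) (h : Irreducible Φ) :
    1 ≤ Φ.totalDegree := by
  by_contra hc
  have h0 : Φ.totalDegree = 0 := by omega
  rw [MvPolynomial.totalDegree_eq_zero_iff_eq_C] at h0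
  have hne : MvPolynomial.coeff 0 Φ ≠ 0 := by
    intro h1
    rw [h1, map_zero] at h0
    exact h.ne_zero h0
  apply h.not_isUnit
  rw [h0]
  exact (IsUnit.mk0 _ hne).map MvPolynomial.C

open Classical in
/-- the zeros of `Φ0` are distributed on at most `deg Φ0` irreducible factors -/
lemma factors_count {k ι : Type} [Field k] (x : ι → k × k) (M m : ℕ) (G : Finset ι)
    (hG : ∀ Φ : MvPolynomial (Fin 2) k, Irreducible Φ → Φ.totalDegree ≤ M →
      (G.filter (fun i => Zr Φ (x i).1 (x i).2)).card ≤ m) :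
    ∀ n ≤ M, ∀ Φ0 : MvPolynomial (Fin 2) k, Φ0 ≠ 0 → Φ0.totalDegree ≤ n → ∀ G' ⊆ G,
      (∀ i ∈ G', Zr Φ0 (x i).1 (x i).2) → G'.card ≤ n * m := by
  intro n
  induction n with
  | zero =>
    intro _ Φ0 hne hdeg G' _ hz
    have h0 : Φ0.totalDegree = 0 := by omega
    rw [MvPolynomial.totalDegree_eq_zero_iff_eq_C] at h0
    have hG' : G' = ∅ := by
      rw [Finset.eq_empty_iff_forall_notMem]
      intro i hi
      have h1 := hz i hi
      rw [h0] at h1
      unfold Zr at h1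
      rw [MvPolynomial.aeval_C] at h1
      have h2 : MvPolynomial.coeff 0 Φ0 = 0 := by simpa using h1
      apply hne
      rw [h0, h2, map_zero]
    rw [hG']
    simp
  | succ n ih =>
    intro hn Φ0 hne hdeg G' hsub hz
    by_cases he : G' = ∅
    · rw [he]; simp
    obtain ⟨i0, hi0⟩ := Finset.nonempty_iff_ne_empty.mpr he
    have hnu : ¬ IsUnit Φ0 := by
      intro hu
      have h1 := hz i0 hi0
      unfold Zr at h1
      have h2 : IsUnit (MvPolynomial.aeval ![(x i0).1, (x i0).2] Φ0) :=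
        hu.map (MvPolynomial.aeval ![(x i0).1, (x i0).2])
      rw [h1] at h2
      exact not_isUnit_zero h2
    obtain ⟨Φ, hΦ, Ψ, hΨ⟩ := WfDvdMonoid.exists_irreducible_factor hnu hne
    have hΨ0 : Ψ ≠ 0 := by
      intro h; apply hne; rw [hΨ, h, mul_zero]
    have hd : Φ0.totalDegree = Φ.totalDegree + Ψ.totalDegree := by
      rw [hΨ]
      exact MvPolynomial.totalDegree_mul_of_isDomain hΦ.ne_zero hΨ0
    have hp := tdeg_pos Φ hΦ
    have h1 : (G'.filter (fun i => Zr Φ (x i).1 (x i).2)).card ≤ m :=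
      le_trans (Finset.card_le_card (Finset.filter_subset_filter _ hsub)) (hG Φ hΦ (by omega))
    have h2 : (G'.filter (fun i => Zr Ψ (x i).1 (x i).2)).card ≤ n * m := by
      apply ih (by omega) Ψ hΨ0 (by omega) _ ((Finset.filter_subset _ _).trans hsub)
      intro i hi
      exact (Finset.mem_filter.mp hi).2
    have h3 : G' ⊆ G'.filter (fun i => Zr Φ (x i).1 (x i).2) ∪
        G'.filter (fun i => Zr Ψ (x i).1 (x i).2) := by
      intro i hi
      have h4 := hz i hi
      unfold Zr at h4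
      rw [hΨ, map_mul, mul_eq_zero] at h4
      rw [Finset.mem_union, Finset.mem_filter, Finset.mem_filter]
      rcases h4 with h4 | h4
      · left; exact ⟨hi, h4⟩
      · right; exact ⟨hi, h4⟩
    calc G'.card ≤ _ := Finset.card_le_card h3
      _ ≤ _ := Finset.card_union_le _ _
      _ ≤ m + n * m := by omega
      _ = (n + 1) * m := by ring

open Classical in
/-- one irreducible factor has many zeros -/
lemma exists_factor {k ι : Type} [Field k] (x : ι → k × k) (n : ℕ) (G : Finset ι) (hne : G.Nonempty)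
    (Φ0 : MvPolynomial (Fin 2) k) (h0 : Φ0 ≠ 0) (hd : Φ0.totalDegree ≤ n)
    (hz : ∀ i ∈ G, Zr Φ0 (x i).1 (x i).2) :
    ∃ Φ : MvPolynomial (Fin 2) k, Irreducible Φ ∧ Φ.totalDegree ≤ n ∧
      G.card ≤ n * (G.filter (fun i => Zr Φ (x i).1 (x i).2)).card := by
  by_contra hcon
  push Not at hcon
  have hpos : 0 < G.card := Finset.card_pos.mpr hne
  rcases Nat.eq_zero_or_pos n with hn | hn
  · have := factors_count x n G.card G (fun Φ _ _ => Finset.card_le_card (Finset.filter_subset _ _))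
      n le_rfl Φ0 h0 hd G (Finset.Subset.refl _) hz
    rw [hn, zero_mul] at this
    omega
  · have := factors_count x n ((G.card - 1) / n) G (fun Φ hΦ hΦd => by
      have h1 := hcon Φ hΦ hΦd
      rw [Nat.le_div_iff_mul_le hn]
      rw [mul_comm]
      omega) n le_rfl Φ0 h0 hd G (Finset.Subset.refl _) hz
    have h2 : n * ((G.card - 1) / n) ≤ G.card - 1 := Nat.mul_div_le _ _
    omega

open Classical in
/-- pigeonhole with four boxes -/
lemma pigeon4 {ι β : Type} (G : Finset ι) (Q : Finset β) (hQ : Q.card ≤ 4) (φ : ι → β)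
    (hφ : ∀ i ∈ G, φ i ∈ Q) (N n : ℕ) (hN : 0 < N) (h : N ≤ 2 * (n * G.card)) :
    ∃ b ∈ Q, ∃ S : Finset ι, (∀ i ∈ S, i ∈ G ∧ φ i = b) ∧ N ≤ 8 * (n + 1) * S.card := by
  suffices hS : ∃ b ∈ Q, N ≤ 8 * (n + 1) * (G.filter (fun i => φ i = b)).card by
    obtain ⟨b, hb, hc⟩ := hS
    exact ⟨b, hb, G.filter (fun i => φ i = b), fun i hi => Finset.mem_filter.mp hi, hc⟩
  by_contra hcon
  push Not at hcon
  have h1 : G.card = ∑ b ∈ Q, (G.filter (fun i => φ i = b)).card :=
    Finset.card_eq_sum_card_fiberwise hφ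
  have h2 : 8 * (n + 1) * G.card ≤ ∑ b ∈ Q, (N - 1) := by
    rw [h1, Finset.mul_sum]
    apply Finset.sum_le_sum
    intro b hb
    have := hcon b hb
    omega
  rw [Finset.sum_const, smul_eq_mul] at h2
  have h3 : Q.card * (N - 1) ≤ 4 * (N - 1) := Nat.mul_le_mul_right _ hQ
  have h4 : 8 * (n * G.card) ≤ 8 * (n + 1) * G.card := by nlinarith
  omega

/-- **Row STB.** -/
theorem zstb (TWO : TwoStatement) (GNZ : GnzStatement) (GUP : GupStatement) (IRD : IrdStatement)
    (LFF : LffStatement) (EMB : EmbStatement) : StbStatement := by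
  classical
  intro n
  refine ⟨(4 * (n + 9)) ^ 2, ?_⟩
  intro k U _ _ _ f g henv J _ th cl act Jk hJK Φ0 hΦ0 hdeg Γ hfin hle hN0 hexc
  have := henv.kc
  have := henv.oc
  have := henv.ch
  have : CharZero U := charZero_of_injective_algebraMap (algebraMap k U).injective
  have : Finite Γ := hfin
  have hJG : JG g J th cl := hJK.toJG
  have hg5 : g.natDegree = 5 := by
    rw [henv.gm, Polynomial.natDegree_map]; exact henv.d5
  have hgsf : Squarefree g := by
    rw [henv.gm]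
    exact (((PerfectField.separable_iff_squarefree).mpr henv.sf).map).squarefree
  have hEMB := fun t : Fin 4 → k => EMB k U f g henv.gm t t
  set N := Nat.card Γ with hNdef
  set s := Nat.sqrt N with hs
  have hsq : s * s ≤ N := Nat.sqrt_le N
  have hs1 : 4 * (n + 9) ≤ s := by
    rw [hs, Nat.le_sqrt, ← sq]
    exact hN0
  -- the second exceptional set
  obtain ⟨-, hTWO⟩ := TWO U g J th cl hg5 hJG
  have hB2 := hTWO Γ hfin 0
  rw [← hNdef, ← hs] at hB2
  set B1 : Set J := {γ : J | γ ∈ Γ ∧ ¬ ∃ t : Fin 4 → k, On f t ∧ γ = cl (emb U t) ∧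
    Zr Φ0 (t 0) (t 1)} with hB1def
  set B2 : Set J := {h : J | h ∈ Γ ∧ ∃ z, 0 + h = th z + th z} with hB2def
  have hΓfin : (Γ : Set J).Finite := Set.toFinite _
  have hB1f : B1.Finite := hΓfin.subset (fun x hx => hx.1)
  have hB2f : B2.Finite := hΓfin.subset (fun x hx => hx.1)
  have hΓcard : hΓfin.toFinset.card = N := by
    rw [hNdef, ← Set.ncard_eq_toFinset_card (Γ : Set J) hΓfin]
    exact (Nat.card_coe_set_eq (Γ : Set J)).symm
  set G : Finset J := hΓfin.toFinset \ (hB1f.toFinset ∪ hB2f.toFinset) with hGdef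
  have hGcard : N ≤ 2 * G.card := by
    have h1 : N - (hB1f.toFinset ∪ hB2f.toFinset).card ≤ G.card := by
      rw [← hΓcard]
      exact Finset.le_card_sdiff _ _
    have h2 : (hB1f.toFinset ∪ hB2f.toFinset).card ≤ B1.ncard + B2.ncard := by
      rw [Set.ncard_eq_toFinset_card B1 hB1f, Set.ncard_eq_toFinset_card B2 hB2f]
      exact Finset.card_union_le _ _
    have h3 : 2 * (n * (s + 1) + (8 * s + 9)) ≤ N := by
      nlinarith [hs1, hsq, Nat.mul_le_mul_right s hs1]
    omega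
  have hNpos : 0 < N := by
    have : 0 < (4 * (n + 9)) ^ 2 := by positivity
    omega
  have hGne : G.Nonempty := by
    rw [← Finset.card_pos]; omega
  -- the vectors
  have hvec : ∀ γ ∈ G, ∃ t : Fin 4 → k, On f t ∧ γ = cl (emb U t) ∧ Zr Φ0 (t 0) (t 1) ∧
      t 0 ^ 2 ≠ 4 * t 1 := by
    intro γ hγ
    rw [hGdef, Finset.mem_sdiff, Finset.mem_union, not_or] at hγ
    obtain ⟨hγΓ, hγ1, hγ2⟩ := hγ
    rw [Set.Finite.mem_toFinset] at hγΓ hγ1 hγ2
    have hγΓ' : γ ∈ Γ := hγΓ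
    have h1 : ∃ t : Fin 4 → k, On f t ∧ γ = cl (emb U t) ∧ Zr Φ0 (t 0) (t 1) := by
      by_contra hc
      exact hγ1 ⟨hγΓ', hc⟩
    obtain ⟨t, ht, htγ, htz⟩ := h1
    refine ⟨t, ht, htγ, htz, ?_⟩
    intro h4
    apply hγ2
    refine ⟨hγΓ', ?_⟩
    have hOng : On g (emb U t) := ((hEMB t).2.2.2.1).mpr ht
    set a : U := emb U t 0 / 2 with ha
    have h4U : (emb U t 0) ^ 2 = 4 * emb U t 1 := by
      unfold emb
      rw [← map_pow, h4, map_mul, map_ofNat]
    have h2a : emb U t 0 = 2 * a := by rw [ha]; field_simp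
    have h1a : emb U t 1 = a ^ 2 := by
      have h5 : (4 : U) * emb U t 1 = 4 * a ^ 2 := by
        rw [← h4U, h2a]; ring
      exact mul_left_cancel₀ (by norm_num) h5
    have hpA : pA (emb U t) = (X - C a) * (X - C a) := by
      unfold pA
      rw [h2a, h1a]
      simp only [map_mul, map_pow]
      have : (C (2 : U) : U[X]) = 2 := rfl
      rw [this]
      ring
    have hon : ((pB (emb U t)).eval a) ^ 2 = g.eval a := by
      obtain ⟨c, hc⟩ := hOng
      have h6 := congrArg (Polynomial.eval a) hc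
      rw [hpA] at h6
      simp only [eval_sub, eval_pow, eval_mul, eval_X, eval_C, sub_self, zero_mul] at h6
      exact sub_eq_zero.mp h6
    refine ⟨⟨a, (pB (emb U t)).eval a, hon⟩, ?_⟩
    rw [zero_add, htγ]
    exact hJG.split (emb U t) _ _ hOng hpA rfl rfl
  choose! T hT using hvec
  -- one factor
  obtain ⟨Φ, hΦ, hΦd, hΦc⟩ := exists_factor (fun γ : J => (T γ 0, T γ 1)) n G hGne Φ0 hΦ0 hdeg
    (fun γ hγ => (hT γ hγ).2.2.1)
  set G1 : Finset J := G.filter (fun γ => Zr Φ (T γ 0) (T γ 1)) with hG1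
  have hG1c : N ≤ 2 * (n * G1.card) := le_trans hGcard (by
    have : G.card ≤ n * G1.card := hΦc
    omega)
  have hG1ne : G1.Nonempty := by
    rw [← Finset.card_pos]
    rcases Nat.eq_zero_or_pos G1.card with h | h
    · rw [h] at hG1c; omega
    · exact h
  obtain ⟨sU, pU, hZ, hgen⟩ := GNZ k U f g henv Φ hΦ
  have hne4 : sU ^ 2 ≠ 4 * pU := by
    intro h4
    obtain ⟨γ, hγ⟩ := hG1ne
    rw [hG1, Finset.mem_filter] at hγ
    obtain ⟨hγG, hγz⟩ := hγ
    have hZ2 : Zr (MvPolynomial.X 0 ^ 2 - 4 * MvPolynomial.X 1 : MvPolynomial (Fin 2) k) sU pU := by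
      unfold Zr
      simp only [map_sub, map_mul, map_pow, MvPolynomial.aeval_X, map_ofNat]
      simp [h4]
    obtain ⟨c, hc⟩ := IRD.1 k U sU pU Φ _ hΦ hZ hgen hZ2
    apply (hT γ hγG).2.2.2
    have h5 := congrArg (MvPolynomial.aeval ![T γ 0, T γ 1]) hc
    unfold Zr at hγz
    rw [map_mul, hγz, zero_mul] at h5
    simp only [map_sub, map_mul, map_pow, MvPolynomial.aeval_X, map_ofNat] at h5
    have h6 : T γ 0 ^ 2 - 4 * T γ 1 = 0 := by simpa using h5
    exact sub_eq_zero.mp h6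
  have hq : ∀ γ ∈ G1, ∃ q : Fin 4 → U, On g q ∧ q 0 = sU ∧ q 1 = pU ∧ Spc q (T γ) := by
    intro γ hγ
    rw [hG1, Finset.mem_filter] at hγ
    obtain ⟨hγG, hγz⟩ := hγ
    exact (GUP k U f g henv Φ hΦ).2 sU pU hZ hgen hne4 (T γ) (hT γ hγG).1 hγz (hT γ hγG).2.2.2
  choose! q hq using hq
  obtain ⟨hQf, hQc⟩ := LFF U g hgsf sU pU
  obtain ⟨q0, hq0, S, hS, hq0c⟩ := pigeon4 G1 hQf.toFinset
    (by rw [← Set.ncard_eq_toFinset_card _ hQf]; exact hQc) q
    (fun γ hγ => by
      rw [Set.Finite.mem_toFinset]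
      exact ⟨(hq γ hγ).1, (hq γ hγ).2.1, (hq γ hγ).2.2.1⟩) N n hNpos hG1c
  rw [Set.Finite.mem_toFinset] at hq0
  obtain ⟨hq0on, hq0s, hq0p⟩ := hq0
  refine ⟨q0, Φ, S, hq0on, ?_, ?_, hΦ, hΦd, ?_, ?_, hq0c⟩
  · unfold Gnr
    rw [hq0s, hq0p]
    exact hgen
  · rw [hq0s, hq0p]
    exact hne4
  · rw [hq0s, hq0p]
    exact hZ
  · intro γ hγ
    obtain ⟨hγ1, hγq⟩ := hS γ hγ
    have hγG : γ ∈ G := by
      rw [hG1, Finset.mem_filter] at hγ1
      exact hγ1.1
    have hγΓ : γ ∈ Γ := by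
      have h7 := hγG
      rw [hGdef, Finset.mem_sdiff, Set.Finite.mem_toFinset] at h7
      exact h7.1
    refine ⟨hγΓ, T γ, (hT γ hγG).1, (hT γ hγG).2.1, ?_⟩
    rw [← hγq]
    exact (hq γ hγ1).2.2.2

end Pool.Agent.KDT.H88
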